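import Pool.Agent.H95.INS.Targets

/-!
Module INI (MP_57ddd5_pr): the piece of a path before the first visit to the strip of the box.
-/

set_option autoImplicit false

namespace Pool.Agent.H36.INS.INI

open Pool.Agent.H95.INS Pool.Agent.H99.NS Pool.Agent.H22.LPP

theorem sg_pos {q : ℝ} (h0 : 0 < q) (h1 : q < 1) : 0 < sg q := by
  unfold sg
  exact div_pos (Real.sqrt_pos.2 h0) (by linarith)

/-- upper bound of a piece with displacement at least `d w` -/
theorem piece (D : Dat) (hD : D.Ok) (ω' : Env) (h1 : O1 D ω') (s t : ℤ) (g : ℤ → ℤ)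
    (hs : -(4 * D.n) ≤ s) (hst : s ≤ t) (ht : t ≤ 4 * D.n) (hp : IsPath s t g) (hX : |g s| ≤ D.X)
    (hX' : |g t| ≤ D.X) (d c : ℝ) (hd : 0 ≤ d) (hdw : d * D.w ≤ |((g t - g s : ℤ) : ℝ)|)
    (hc : |(g s : ℝ)| ≤ c * D.w) (hc' : |(g t : ℝ)| ≤ c * D.w) :
    wt ω' s t g ≤ mu D.q * ((t - s : ℤ) : ℝ) - sg D.q / 2 / (51 / 50) * d ^ 2 * D.f +
      D.K * D.f * (1 + c) := by
  have hn := hD.n1
  have hnR : (1 : ℝ) ≤ (D.n : ℝ) := by exact_mod_cast hn
  have hw : (1 : ℝ) ≤ (D.w : ℝ) := by exact_mod_cast hD.w1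
  have hw0 : (0 : ℝ) < (D.w : ℝ) := by linarith
  have hf := hD.f0
  have hK := hD.K0
  have hsg := sg_pos hD.q0 hD.q1
  have hsc := hD.sc
  have h2 := h1 s t g (by omega) hst (by omega) hp hX hX'
  have h3 : max |(g s : ℝ)| |(g t : ℝ)| / D.w ≤ c := by
    rw [div_le_iff₀ hw0]
    exact max_le hc hc'
  have h4 : D.K * D.f * (1 + max |(g s : ℝ)| |(g t : ℝ)| / D.w) ≤ D.K * D.f * (1 + c) :=
    mul_le_mul_of_nonneg_left (by linarith) (by positivity)
  have h5 : d ^ 2 * (8 * D.n * D.f) ≤ ((g t - g s : ℤ) : ℝ) ^ 2 := by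
    rw [← hsc, ← mul_pow, ← sq_abs (((g t - g s : ℤ) : ℝ))]
    exact pow_le_pow_left₀ (by positivity) hdw 2
  have h6 : (((t - s : ℤ) : ℝ)) ≤ 8 * D.n := by
    have : t - s ≤ 8 * D.n := by omega
    exact_mod_cast this
  have h6' : (0 : ℝ) ≤ (((t - s : ℤ) : ℝ)) := by
    have : 0 ≤ t - s := by omega
    exact_mod_cast this
  have h7 : sg D.q / 2 / (51 / 50) * d ^ 2 * D.f ≤
      sg D.q / 2 * ((g t - g s : ℤ) : ℝ) ^ 2 / ((((t - s : ℤ) : ℝ)) + 8 * D.n / 50) := by
    rw [le_div_iff₀ (by linarith)]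
    calc sg D.q / 2 / (51 / 50) * d ^ 2 * D.f * ((((t - s : ℤ) : ℝ)) + 8 * D.n / 50)
        ≤ sg D.q / 2 / (51 / 50) * d ^ 2 * D.f * (8 * D.n * (51 / 50)) :=
          mul_le_mul_of_nonneg_left (by linarith) (by positivity)
      _ = sg D.q / 2 * (d ^ 2 * (8 * D.n * D.f)) := by ring
      _ ≤ _ := mul_le_mul_of_nonneg_left h5 (by positivity)
  unfold sp at h2
  linarith

theorem pf_INI : T_INI := by
  intro D ω ω' hD hA h1 t g ht0 ht1 hp hX hgt hout a ha
  have hn := hD.n1
  have hnR : (1 : ℝ) ≤ (D.n : ℝ) := by exact_mod_cast hn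
  have hw1 := hD.w1
  have hA2 := hD.A2
  have hA2R : (2 : ℝ) ≤ (D.A : ℝ) := by exact_mod_cast hA2
  have hw : (1 : ℝ) ≤ (D.w : ℝ) := by exact_mod_cast hD.w1
  have hw0 : (0 : ℝ) < (D.w : ℝ) := by linarith
  have hf := hD.f0
  have hK := hD.K0
  have hsg := sg_pos hD.q0 hD.q1
  have hX1 := hD.X1
  have hAw : 0 < D.A * D.w := by positivity
  have hAX : D.A * D.w ≤ D.X := by
    have : 16 * D.A * D.w = 16 * (D.A * D.w) := by ring
    omega
  have h16 : 16 * D.A * D.w = 16 * (D.A * D.w) := by ring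
  have ea : |(g (-(4 * D.n)) : ℝ)| = a * D.w := by
    rw [ha, div_mul_cancel₀ _ hw0.ne']
  have ha0 : 0 ≤ a := by
    rw [ha]; positivity
  have hgtR : |(g t : ℝ)| ≤ D.A * D.w := by exact_mod_cast hgt
  rcases eq_or_lt_of_le ht0 with h0 | h0
  · -- trivial piece
    rw [← h0] at hgt hgtR ⊢
    have e1 : wt ω (-(4 * D.n)) (-(4 * D.n)) g = 0 := by
      unfold wt
      rw [Finset.Ioc_self, Finset.sum_empty]
    have haA : a ≤ D.A := by
      rw [ea] at hgtR
      exact le_of_mul_le_mul_right hgtR hw0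
    refine ⟨?_, ?_⟩
    · rw [e1, max_eq_left (by linarith)]
      have : 0 ≤ 2 * D.K * (1 + 16 * D.A + a) * D.f := by positivity
      simp only [sub_self, Int.cast_zero, mul_zero]
      nlinarith
    · rintro ⟨r, hr1, hr2, hr3⟩
      have : r = -(4 * D.n) := by omega
      subst this
      omega
  · have hge : ∀ r, -(4 * D.n) ≤ r → r ≤ t → D.A * D.w ≤ |g r| := by
      intro r hr1 hr2
      rcases eq_or_lt_of_le hr2 with h | h
      · subst h
        have e1 := hout (r - 1) (by omega) (by omega)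
        have e2 := hp (r - 1) (by omega) (by omega)
        rw [sub_add_cancel] at e2
        have e3 : |g (r - 1)| ≤ |g r| + 1 := by
          rcases abs_cases (g (r - 1)) with h5 | h5 <;> rcases abs_cases (g r) with h6 | h6 <;>
            omega
        omega
      · exact (hout r hr1 h).le
    have ewt : ∀ s s' : ℤ, -(4 * D.n) ≤ s → s' ≤ t → wt ω s s' g = wt ω' s s' g := by
      intro s s' hs hs'
      refine wt_congr fun r hr1 hr2 => hA _ ?_
      rintro ⟨-, -, h⟩
      simp only at h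
      have := hge r (by omega) (by omega)
      omega
    have first : wt ω (-(4 * D.n)) t g ≤ mu D.q * ((t - (-(4 * D.n)) : ℤ) : ℝ) +
      2 * D.K * (1 + 16 * D.A + a) * D.f -
      sg D.q / 2 / (51 / 50) * (max 0 (a - D.A)) ^ 2 * D.f := by
      rw [ewt _ _ le_rfl le_rfl]
      have := piece D hD ω' h1 (-(4 * D.n)) t g le_rfl ht0 ht1 hp hX (hgt.trans hAX)
        (max 0 (a - D.A)) (a + D.A) (le_max_left _ _) (by
          push_cast
          rcases le_total (a - D.A) 0 with h | h
          · rw [max_eq_left h, zero_mul]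
            exact abs_nonneg _
          · rw [max_eq_right h]
            have h5 := abs_sub_abs_le_abs_sub (g (-(4 * D.n)) : ℝ) (g t)
            rw [abs_sub_comm] at h5
            calc (a - D.A) * D.w = |(g (-(4 * D.n)) : ℝ)| - D.A * D.w := by rw [ea]; ring
              _ ≤ |(g (-(4 * D.n)) : ℝ)| - |(g t : ℝ)| := by linarith
              _ ≤ _ := h5) (by
          rw [ea]
          have : 0 ≤ (D.A : ℝ) * D.w := by positivity
          linarith) (by
          have : 0 ≤ a * D.w := by positivity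
          linarith)
      have e7 : D.K * D.f * (1 + (a + D.A)) ≤ 2 * D.K * (1 + 16 * D.A + a) * D.f := by
        have : 0 ≤ D.K * D.f := by positivity
        have e8 : 2 * D.K * (1 + 16 * D.A + a) * D.f = D.K * D.f * (2 * (1 + 16 * D.A + a)) := by
          ring
        rw [e8]
        exact mul_le_mul_of_nonneg_left (by linarith) this
      linarith
    refine ⟨first, ?_⟩
    rintro ⟨r, hr1, hr2, hr3⟩
    rcases le_or_gt (16 * (D.A : ℝ)) a with hcase | hcase
    · refine first.trans ?_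
      have h5 : (15 * (D.A : ℝ)) ^ 2 ≤ (max 0 (a - D.A)) ^ 2 := by
        refine pow_le_pow_left₀ (by positivity) ?_ 2
        exact le_trans (by linarith) (le_max_right _ _)
      have h6 : sg D.q / 2 / (51 / 50) * (15 * (D.A : ℝ)) ^ 2 * D.f ≤
          sg D.q / 2 / (51 / 50) * (max 0 (a - D.A)) ^ 2 * D.f :=
        mul_le_mul_of_nonneg_right (mul_le_mul_of_nonneg_left h5 (by positivity)) hf.le
      linarith
    · -- first time in the wide strip
      have hlt : |g (-(4 * D.n))| < 16 * (D.A * D.w) := by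
        have h5 : |(g (-(4 * D.n)) : ℝ)| < 16 * (D.A * D.w) := by
          rw [ea]
          nlinarith
        exact_mod_cast h5
      obtain ⟨m, ⟨hm1, hm2⟩, hmin⟩ := Int.exists_least_of_bdd
        (P := fun r => -(4 * D.n) ≤ r ∧ 16 * (D.A * D.w) ≤ |g r|)
        ⟨-(4 * D.n), fun z hz => hz.1⟩ ⟨r, hr1, by rw [← h16]; exact hr3⟩
      have hmr : m ≤ r := hmin r ⟨hr1, by rw [← h16]; exact hr3⟩
      have hm0 : -(4 * D.n) < m := by
        rcases eq_or_lt_of_le hm1 with h | h
        · rw [← h] at hm2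
          omega
        · exact h
      have hm3 : |g m| ≤ 16 * (D.A * D.w) := by
        have e1 : |g (m - 1)| < 16 * (D.A * D.w) := by
          by_contra h
          push Not at h
          have := hmin (m - 1) ⟨by omega, h⟩
          omega
        have e2 := hp (m - 1) (by omega) (by omega)
        rw [sub_add_cancel] at e2
        rcases abs_cases (g (m - 1)) with h5 | h5 <;> rcases abs_cases (g m) with h6 | h6 <;>
            omega
      have hm3R : |(g m : ℝ)| ≤ 16 * (D.A * D.w) := by exact_mod_cast hm3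
      have hm2R : 16 * ((D.A : ℝ) * D.w) ≤ |(g m : ℝ)| := by exact_mod_cast hm2
      rw [ewt _ _ le_rfl le_rfl, wt_add ω' hm0.le (hmr.trans hr2)]
      have p1 := piece D hD ω' h1 (-(4 * D.n)) m g le_rfl hm0.le (by omega)
        (fun x hx1 hx2 => hp x hx1 (by omega)) hX (by omega) 0 (16 * D.A) le_rfl (by
          rw [zero_mul]; exact abs_nonneg _) (by
          rw [ea]
          exact mul_le_mul_of_nonneg_right hcase.le hw0.le) (by linarith)
      have p2 := piece D hD ω' h1 m t g (by omega) (hmr.trans hr2) ht1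
        (fun x hx1 hx2 => hp x (by omega) hx2) (by omega) (hgt.trans hAX) (15 * D.A) (16 * D.A)
        (by positivity) (by
          push_cast
          have h5 := abs_sub_abs_le_abs_sub (g m : ℝ) (g t)
          rw [abs_sub_comm] at h5
          linarith) (by linarith) (by
          have : 0 ≤ (D.A : ℝ) * D.w := by positivity
          linarith)
      have e9 : mu D.q * ((m - (-(4 * D.n)) : ℤ) : ℝ) + mu D.q * ((t - m : ℤ) : ℝ) =
          mu D.q * ((t - (-(4 * D.n)) : ℤ) : ℝ) := by
        push_cast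
        ring
      have e10 : D.K * D.f * (1 + 16 * D.A) + D.K * D.f * (1 + 16 * D.A) ≤
          2 * D.K * (1 + 16 * D.A + a) * D.f := by
        have : 0 ≤ D.K * D.f * a := by positivity
        linarith
      have e11 : sg D.q / 2 / (51 / 50) * (0 : ℝ) ^ 2 * D.f = 0 := by ring
      rw [e11] at p1
      linarith

end Pool.Agent.H36.INS.INI
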