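import Pool.Agent.H95.INS.Targets

/-!
Module INN (MP_57ddd5_pr): the explicit path through the two highways.
-/

set_option autoImplicit false

namespace Pool.Agent.H36.INS

open Pool.Agent.H95.INS Pool.Agent.H99.NS Pool.Agent.H22.LPP

theorem sg_pos {q : ℝ} (h0 : 0 < q) (h1 : q < 1) : 0 < sg q := by
  unfold sg
  exact div_pos (Real.sqrt_pos.2 h0) (by linarith)

theorem concat2 (ω : Env) {a b c : ℤ} (hab : a ≤ b) (hbc : b ≤ c) {f g : ℤ → ℤ}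
    (hf : IsPath a b f) (hg : IsPath b c g) (hfg : f b = g b) {X : ℤ} (Sf : Stay X a b f)
    (Sg : Stay X b c g) :
    ∃ m, IsPath a c m ∧ m a = f a ∧ m c = g c ∧ Stay X a c m ∧
      wt ω a c m = wt ω a b f + wt ω b c g := by
  have c1 : Conn (a, f a) (b, f b) f := ⟨hf, rfl, rfl⟩
  have c2 : Conn (b, f b) (c, g c) g := ⟨hg, hfg.symm, rfl⟩
  obtain ⟨h1, h2, h3⟩ := conn_concat (u := (a, f a)) (v := (b, f b)) (w := (c, g c)) hab hbc c1 c2
  refine ⟨_, h1, h2, h3, ?_, ?_⟩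
  · intro r hr1 hr2
    simp only
    split_ifs with h
    · exact Sf r hr1 h
    · exact Sg r (by omega) hr2
  · rw [wt_add ω hab hbc]
    congr 1
    · refine wt_congr fun r _ hr => ?_
      simp only
      rw [if_pos hr]
    · refine wt_congr fun r hr _ => ?_
      simp only
      rw [if_neg (by omega)]

theorem par_low (q : ℝ) (h0 : 0 < q) (h1 : q < 1) (s t x y : ℤ) (L c : ℝ) (hL : ((t - s : ℤ) : ℝ) = L)
    (hL0 : 0 < L) (hc : ((y - x : ℤ) : ℝ) ^ 2 ≤ c * L) :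
    mu q * L - sg q / 2 * c ≤ par q (s, x) (t, y) := by
  unfold par
  simp only
  rw [hL]
  have hs := sg_pos h0 h1
  have : sg q / 2 * ((y - x : ℤ) : ℝ) ^ 2 / L ≤ sg q / 2 * c := by
    rw [div_le_iff₀ hL0]
    calc sg q / 2 * ((y - x : ℤ) : ℝ) ^ 2 ≤ sg q / 2 * (c * L) :=
          mul_le_mul_of_nonneg_left hc (by positivity)
      _ = _ := by ring
  linarith

theorem sq_bound {x : ℤ} {W : ℤ} (h : |x| ≤ W) : ((x : ℤ) : ℝ) ^ 2 ≤ (W : ℝ) ^ 2 := by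
  have h1 : |(x : ℝ)| ≤ (W : ℝ) := by exact_mod_cast h
  have h2 := sq_abs (x : ℝ)
  rw [← h2]
  exact pow_le_pow_left₀ (abs_nonneg _) h1 2

theorem pf_INN : T_INN := by
  intro D ω hD hE
  have hn : 1 ≤ D.n := hD.n1
  have hnR : (1 : ℝ) ≤ (D.n : ℝ) := by exact_mod_cast hn
  obtain ⟨p1, ⟨q1a, q1b, q1c, q1d, q1e⟩, e1⟩ := hE.h1
  obtain ⟨p2, ⟨q2a, q2b, q2c, q2d, q2e⟩, e2⟩ := hE.h2
  have l1 := path_lip q1a (a := -(3 * D.n)) (b := -(2 * D.n)) le_rfl (by omega) le_rfl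
  have l2 := path_lip q2a (a := 2 * D.n) (b := 3 * D.n) le_rfl (by omega) le_rfl
  obtain ⟨k1, hk1⟩ := l1.2
  obtain ⟨k2, hk2⟩ := l2.2
  obtain ⟨k3, hk3⟩ := q1e
  obtain ⟨k4, hk4⟩ := q2e
  obtain ⟨g1, a1, b1, c1, d1, f1⟩ := hE.lo.l1 (p1 (-(3 * D.n))) q1c ⟨k3 + 3 * D.n, by omega⟩
  obtain ⟨g2, a2, b2, c2, d2, f2⟩ := hE.lo.l2 (p1 (-(2 * D.n))) (p2 (2 * D.n)) q1d q2c
    ⟨k1 + k3 + 2 * D.n, by omega⟩ ⟨k4, by omega⟩
  obtain ⟨g3, a3, b3, c3, d3, f3⟩ := hE.lo.l3 (p2 (3 * D.n)) q2d ⟨k2 + k4, by omega⟩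
  obtain ⟨m1, i1, j1, r1, s1, w1⟩ := concat2 ω (a := -(4 * D.n)) (b := -(3 * D.n))
    (c := -(2 * D.n)) (by omega) (by omega) a1 q1a c1 d1 q1b
  obtain ⟨m2, i2, j2, r2, s2, w2⟩ := concat2 ω (a := -(4 * D.n)) (b := -(2 * D.n))
    (c := 2 * D.n) (by omega) (by omega) i1 a2 (by rw [r1, b2]) s1 d2
  obtain ⟨m3, i3, j3, r3, s3, w3⟩ := concat2 ω (a := -(4 * D.n)) (b := 2 * D.n)
    (c := 3 * D.n) (by omega) (by omega) i2 q2a (by rw [r2, c2]) s2 q2b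
  obtain ⟨m4, i4, j4, r4, s4, w4⟩ := concat2 ω (a := -(4 * D.n)) (b := 3 * D.n)
    (c := 4 * D.n) (by omega) (by omega) i3 a3 (by rw [r3, b3]) s3 d3
  refine ⟨m4, i4, by rw [j4, j3, j2, j1, b1], by rw [r4, c3], s4, ?_⟩
  rw [w4, w3, w2, w1]
  unfold Exc at f1 f2 f3 e1 e2
  rw [b1, c1] at f1
  rw [b2, c2] at f2
  rw [b3, c3] at f3
  have hsc := hD.sc
  have P1 := par_low D.q hD.q0 hD.q1 (-(4 * D.n)) (-(3 * D.n)) 0 (p1 (-(3 * D.n))) D.n (8 * D.f)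
    (by push_cast; ring) (by linarith) (by
      have := sq_bound (x := p1 (-(3 * D.n)) - 0) (W := D.w) (by simpa using q1c)
      nlinarith only [hsc, this])
  have P2 := par_low D.q hD.q0 hD.q1 (-(3 * D.n)) (-(2 * D.n)) (p1 (-(3 * D.n))) (p1 (-(2 * D.n)))
    D.n (32 * D.f) (by push_cast; ring) (by linarith) (by
      have := sq_bound (x := p1 (-(2 * D.n)) - p1 (-(3 * D.n))) (W := 2 * D.w) (by
        rw [abs_le] at *; omega)
      push_cast at this ⊢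
      nlinarith only [hsc, this])
  have P3 := par_low D.q hD.q0 hD.q1 (-(2 * D.n)) (2 * D.n) (p1 (-(2 * D.n))) (p2 (2 * D.n))
    (4 * D.n) (8 * D.f) (by push_cast; ring) (by linarith) (by
      have := sq_bound (x := p2 (2 * D.n) - p1 (-(2 * D.n))) (W := 2 * D.w) (by
        rw [abs_le] at *; omega)
      push_cast at this ⊢
      nlinarith only [hsc, this])
  have P4 := par_low D.q hD.q0 hD.q1 (2 * D.n) (3 * D.n) (p2 (2 * D.n)) (p2 (3 * D.n))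
    D.n (32 * D.f) (by push_cast; ring) (by linarith) (by
      have := sq_bound (x := p2 (3 * D.n) - p2 (2 * D.n)) (W := 2 * D.w) (by
        rw [abs_le] at *; omega)
      push_cast at this ⊢
      nlinarith only [hsc, this])
  have P5 := par_low D.q hD.q0 hD.q1 (3 * D.n) (4 * D.n) (p2 (3 * D.n)) 0 D.n (8 * D.f)
    (by push_cast; ring) (by linarith) (by
      have := sq_bound (x := 0 - p2 (3 * D.n)) (W := D.w) (by rw [zero_sub, abs_neg]; exact q2d)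
      push_cast at this ⊢
      nlinarith only [hsc, this])
  unfold Mlow
  linarith

end Pool.Agent.H36.INS
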