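import Pool.Agent.H95.INS.Targets

/-!
Module LEX (MP_57ddd5_pr): existence of leftmost geodesics.
-/

set_option autoImplicit false

namespace Pool.Agent.H36.INS

open Pool.Agent.H95.INS Pool.Agent.H99.NS Pool.Agent.H22.LPP

theorem parity_diff {s t : ℤ} {g g' : ℤ → ℤ} (h : IsPath s t g) (h' : IsPath s t g')
    (h0 : g s = g' s) {r : ℤ} (h1 : s ≤ r) (h2 : r ≤ t) : Even (g r - g' r) := by
  obtain ⟨k, hk⟩ := (path_lip h le_rfl h1 h2).2
  obtain ⟨k', hk'⟩ := (path_lip h' le_rfl h1 h2).2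
  exact ⟨k - k', by omega⟩

theorem min_path {s t : ℤ} {g g' : ℤ → ℤ} (h : IsPath s t g) (h' : IsPath s t g')
    (h0 : g s = g' s) : IsPath s t (fun r => min (g r) (g' r)) := by
  intro r h1 h2
  obtain ⟨k, hk⟩ := parity_diff h h' h0 h1 h2.le
  have e1 := h r h1 h2
  have e2 := h' r h1 h2
  simp only
  omega

theorem max_path {s t : ℤ} {g g' : ℤ → ℤ} (h : IsPath s t g) (h' : IsPath s t g')
    (h0 : g s = g' s) : IsPath s t (fun r => max (g r) (g' r)) := by
  intro r h1 h2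
  obtain ⟨k, hk⟩ := parity_diff h h' h0 h1 h2.le
  have e1 := h r h1 h2
  have e2 := h' r h1 h2
  simp only
  omega

theorem wt_min_max (ω : Env) (s t : ℤ) (g g' : ℤ → ℤ) :
    wt ω s t (fun r => min (g r) (g' r)) + wt ω s t (fun r => max (g r) (g' r)) =
      wt ω s t g + wt ω s t g' := by
  unfold wt
  rw [← Finset.sum_add_distrib, ← Finset.sum_add_distrib]
  refine Finset.sum_congr rfl fun r _ => ?_
  beta_reduce
  rcases le_total (g r) (g' r) with h | h
  · rw [min_eq_left h, max_eq_right h]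
  · rw [min_eq_right h, max_eq_left h, add_comm]

theorem geo_min {ω : Env} {u v : Site} (huv : u.1 ≤ v.1) {g g' : ℤ → ℤ} (h : Geo ω u v g)
    (h' : Geo ω u v g') : Geo ω u v (fun r => min (g r) (g' r)) := by
  have h0 : g u.1 = g' u.1 := by rw [h.1.2.1, h'.1.2.1]
  have h1 : g v.1 = g' v.1 := by rw [h.1.2.2, h'.1.2.2]
  have c1 : Conn u v (fun r => min (g r) (g' r)) := by
    refine ⟨min_path h.1.1 h'.1.1 h0, ?_, ?_⟩
    · simp only
      rw [← h0, min_self, h.1.2.1]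
    · simp only
      rw [← h1, min_self, h.1.2.2]
  have c2 : Conn u v (fun r => max (g r) (g' r)) := by
    refine ⟨max_path h.1.1 h'.1.1 h0, ?_, ?_⟩
    · simp only
      rw [← h0, max_self, h.1.2.1]
    · simp only
      rw [← h1, max_self, h.1.2.2]
  refine ⟨c1, ?_⟩
  have e1 := le_T ω huv c1
  have e2 := le_T ω huv c2
  have e3 := wt_min_max ω u.1 v.1 g g'
  rw [h.2, h'.2] at e3
  linarith

theorem pf_LEX : T_LEX := by
  classical
  intro ω u v huv
  have hle := reach_le huv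
  obtain ⟨g0, hg0, hg1, _⟩ := T_attained ω huv
  let N : (ℤ → ℤ) → ℕ := fun g => ∑ r ∈ Finset.Icc u.1 v.1, (g r - (u.2 - (r - u.1))).toNat
  have hex : ∃ n, ∃ g, Geo ω u v g ∧ N g = n := ⟨_, g0, ⟨hg0, hg1.symm⟩, rfl⟩
  obtain ⟨g, hg, hN⟩ := Nat.find_spec hex
  refine ⟨g, hg, ?_⟩
  intro g' hg' r hr1 hr2
  by_contra hlt
  push Not at hlt
  have hm := geo_min hle hg hg'
  have h1 : N (fun r => min (g r) (g' r)) < N g := by
    refine Finset.sum_lt_sum (fun x _ => ?_) ⟨r, Finset.mem_Icc.2 ⟨hr1, hr2⟩, ?_⟩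
    · simp only
      omega
    · have h3 := path_lip hg'.1.1 le_rfl hr1 hr2
      rw [hg'.1.2.1, abs_le] at h3
      simp only
      omega
  rw [hN] at h1
  exact Nat.find_min hex h1 ⟨_, hm, rfl⟩

end Pool.Agent.H36.INS
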