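import Pool.Agent.H95.INS.Targets

/-!
Module XY (MP_57ddd5_pr): the inequalities (Y) and (X).
-/

set_option autoImplicit false

namespace Pool.Agent.H36.INS.XY

open Pool.Agent.H95.INS Pool.Agent.H99.NS Pool.Agent.H22.LPP

theorem sg_pos {q : ℝ} (h0 : 0 < q) (h1 : q < 1) : 0 < sg q := by
  unfold sg
  exact div_pos (Real.sqrt_pos.2 h0) (by linarith)

/-- lower bound for the passage time between two levels at distance `260 n` -/
theorem low_bd (D : Dat) (hD : D.Ok) (x y : ℤ) (s t : ℤ) (ht : t - s = 260 * D.n) (c d : ℝ)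
    (hc : |(x : ℝ)| ≤ c * D.w) (hd : |(y : ℝ)| ≤ d * D.w) :
    mu D.q * (260 * D.n) - sg D.q / 2 * (c + d) ^ 2 / (65 / 2) * D.f -
      D.K * D.f * (1 + (c + d)) ≤
    par D.q (s, x) (t, y) - D.K * D.f * (1 + max |(x : ℝ)| |(y : ℝ)| / D.w) := by
  have hn : (1 : ℝ) ≤ (D.n : ℝ) := by exact_mod_cast hD.n1
  have hw : (1 : ℝ) ≤ (D.w : ℝ) := by exact_mod_cast hD.w1
  have hw0 : (0 : ℝ) < (D.w : ℝ) := by linarith
  have hf := hD.f0
  have hK := hD.K0
  have hs := sg_pos hD.q0 hD.q1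
  have hsc := hD.sc
  have e1 : ((t - s : ℤ) : ℝ) = 260 * D.n := by rw [ht]; push_cast; ring
  have hcd : |((y - x : ℤ) : ℝ)| ≤ (c + d) * D.w := by
    push_cast
    calc |(y : ℝ) - x| ≤ |(y : ℝ)| + |(x : ℝ)| := abs_sub _ _
      _ ≤ _ := by linarith
  have hsq : ((y - x : ℤ) : ℝ) ^ 2 ≤ (c + d) ^ 2 * (8 * D.n * D.f) := by
    rw [← sq_abs, ← hsc, ← mul_pow]
    exact pow_le_pow_left₀ (abs_nonneg _) hcd 2
  have hc0 : 0 ≤ c := by
    by_contra h
    push Not at h
    have : c * D.w < 0 := mul_neg_of_neg_of_pos h hw0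
    linarith [abs_nonneg (x : ℝ)]
  have hd0 : 0 ≤ d := by
    by_contra h
    push Not at h
    have : d * D.w < 0 := mul_neg_of_neg_of_pos h hw0
    linarith [abs_nonneg (y : ℝ)]
  have h1 : sg D.q / 2 * ((y - x : ℤ) : ℝ) ^ 2 / (260 * D.n) ≤
      sg D.q / 2 * (c + d) ^ 2 / (65 / 2) * D.f := by
    rw [div_le_iff₀ (by linarith)]
    calc sg D.q / 2 * ((y - x : ℤ) : ℝ) ^ 2 ≤ sg D.q / 2 * ((c + d) ^ 2 * (8 * D.n * D.f)) :=
          mul_le_mul_of_nonneg_left hsq (by positivity)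
      _ = _ := by ring
  have h2 : max |(x : ℝ)| |(y : ℝ)| / D.w ≤ c + d := by
    rw [div_le_iff₀ hw0]
    refine max_le ?_ ?_
    · have := mul_nonneg hd0 hw0.le
      linarith
    · have := mul_nonneg hc0 hw0.le
      linarith
  have h3 : D.K * D.f * (1 + max |(x : ℝ)| |(y : ℝ)| / D.w) ≤ D.K * D.f * (1 + (c + d)) :=
    mul_le_mul_of_nonneg_left (by linarith) (by positivity)
  unfold par
  simp only
  rw [e1]
  linarith

theorem pf_XY : T_XY := by
  intro D ω ω' o e hD hA hE h1 h2 γ h3 g hg hgX hgX' a b ha hb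
  have hn := hD.n1
  have hnR : (1 : ℝ) ≤ (D.n : ℝ) := by exact_mod_cast hn
  have hw : (1 : ℝ) ≤ (D.w : ℝ) := by exact_mod_cast hD.w1
  have hw0 : (0 : ℝ) < (D.w : ℝ) := by linarith
  have hf := hD.f0
  have hK := hD.K0
  have hB := hD.B0
  have hs := sg_pos hD.q0 hD.q1
  have ho := hE.o1
  have he := hE.e1
  have hA2 := hD.A2
  have hX1 := hD.X1
  have hX2 := hD.X2
  have hw1 := hD.w1
  -- decomposition
  have d0 : wt ω o.1 e.1 g = wt ω o.1 (-(4 * D.n)) g + wt ω (-(4 * D.n)) (4 * D.n) g +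
      wt ω (4 * D.n) e.1 g := by
    rw [wt_add ω (m := -(4 * D.n)) (by omega) (by omega), wt_add ω (s := -(4 * D.n))
      (m := 4 * D.n) (t := e.1) (by omega) (by omega)]
    ring
  have d1 : wt ω o.1 (-(4 * D.n)) g = wt ω' o.1 (-(4 * D.n)) g := by
    refine wt_congr fun r hr1 hr2 => hA _ ?_
    rintro ⟨h, -⟩
    simp only at h
    omega
  have d2 : wt ω (4 * D.n) e.1 g = wt ω' (4 * D.n) e.1 g := by
    refine wt_congr fun r hr1 hr2 => hA _ ?_
    rintro ⟨-, h, -⟩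
    simp only at h
    omega
  have cL : Conn o (-(4 * D.n), g (-(4 * D.n))) g := hg.left (by omega)
  have cR : Conn (4 * D.n, g (4 * D.n)) e g := hg.right (by omega)
  have rL : Reach o (-(4 * D.n), g (-(4 * D.n))) := cL.reach (by simp only; omega)
  have rR : Reach (4 * D.n, g (4 * D.n)) e := cR.reach (by simp only; omega)
  have rM : Reach (-(4 * D.n), g (-(4 * D.n))) (4 * D.n, g (4 * D.n)) :=
    hg.reach_mid (by omega) (by omega) (by omega)
  have t1 : wt ω' o.1 (-(4 * D.n)) g ≤ T ω' o (-(4 * D.n), g (-(4 * D.n))) :=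
    le_T ω' (u := o) (v := (-(4 * D.n), g (-(4 * D.n)))) (by simp only; omega) cL
  have t2 : wt ω' (4 * D.n) e.1 g ≤ T ω' (4 * D.n, g (4 * D.n)) e :=
    le_T ω' (u := (4 * D.n, g (4 * D.n))) (v := e) (by simp only; omega) cR
  rw [← d1] at t1
  rw [← d2] at t2
  refine ⟨?_, ?_⟩
  · -- (Y)
    have s1 := T_superadd ω' rL rM
    have s2 := T_superadd ω' (reach_trans rL rM) rR
    have s3 := h2.c (g (-(4 * D.n))) (g (4 * D.n)) hgX hgX' rM
    have s4 : max |(g (-(4 * D.n)) : ℝ)| |(g (4 * D.n) : ℝ)| / D.w = max a b := by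
      rw [ha, hb, max_div_div_right hw0.le]
    rw [s4] at s3
    linarith
  · -- (X)
    obtain ⟨⟨cγ, hγ⟩, b1, b2⟩ := h3
    have hBw : D.B * D.w ≤ D.A * D.w := mul_le_mul_of_nonneg_right hD.BA hw0.le
    have b1' : |γ (-(256 * D.n))| ≤ D.A * D.w := by
      have : |(γ (-(256 * D.n)) : ℝ)| ≤ D.A * D.w := b1.trans hBw
      exact_mod_cast this
    have b2' : |γ (256 * D.n)| ≤ D.A * D.w := by
      have : |(γ (256 * D.n) : ℝ)| ≤ D.A * D.w := b2.trans hBw
      exact_mod_cast this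
    have hAw : 0 ≤ D.A * D.w := by positivity
    have hAX : D.A * D.w ≤ D.X := by
      have : 16 * D.A * D.w = 16 * (D.A * D.w) := by ring
      omega
    have e0 : wt ω' o.1 e.1 γ = wt ω' o.1 (-(256 * D.n)) γ + wt ω' (-(256 * D.n)) (256 * D.n) γ +
        wt ω' (256 * D.n) e.1 γ := by
      rw [wt_add ω' (m := -(256 * D.n)) (by omega) (by omega), wt_add ω' (s := -(256 * D.n))
        (m := 256 * D.n) (t := e.1) (by omega) (by omega)]
      ring
    have cL' : Conn o (-(256 * D.n), γ (-(256 * D.n))) γ := cγ.left (by omega)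
    have cR' : Conn (256 * D.n, γ (256 * D.n)) e γ := cγ.right (by omega)
    have rL' : Reach o (-(256 * D.n), γ (-(256 * D.n))) := cL'.reach (by simp only; omega)
    have rR' : Reach (256 * D.n, γ (256 * D.n)) e := cR'.reach (by simp only; omega)
    have t1' : wt ω' o.1 (-(256 * D.n)) γ ≤ T ω' o (-(256 * D.n), γ (-(256 * D.n))) :=
      le_T ω' (u := o) (v := (-(256 * D.n), γ (-(256 * D.n)))) (by simp only; omega) cL'
    have t2' : wt ω' (256 * D.n) e.1 γ ≤ T ω' (256 * D.n, γ (256 * D.n)) e :=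
      le_T ω' (u := (256 * D.n, γ (256 * D.n))) (v := e) (by simp only; omega) cR'
    have pm : IsPath (-(256 * D.n)) (256 * D.n) γ :=
      fun r hr1 hr2 => cγ.1 r (by omega) (by omega)
    have u1 := h1 (-(256 * D.n)) (256 * D.n) γ le_rfl (by omega) le_rfl pm (b1'.trans hAX)
      (b2'.trans hAX)
    have u2 : sp D.q (8 * D.n / 50) (-(256 * D.n)) (256 * D.n) γ ≤ mu D.q * (512 * D.n) := by
      unfold sp
      have e1 : (((256 * D.n - -(256 * D.n) : ℤ) : ℝ)) = 512 * D.n := by push_cast; ring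
      rw [e1]
      have : 0 ≤ sg D.q / 2 * ((γ (256 * D.n) - γ (-(256 * D.n)) : ℤ) : ℝ) ^ 2 /
          (512 * D.n + 8 * D.n / 50) := by positivity
      linarith
    have u3 : max |(γ (-(256 * D.n)) : ℝ)| |(γ (256 * D.n) : ℝ)| / D.w ≤ D.B := by
      rw [div_le_iff₀ hw0]
      exact max_le b1 b2
    have u4 : D.K * D.f * (1 + max |(γ (-(256 * D.n)) : ℝ)| |(γ (256 * D.n) : ℝ)| / D.w) ≤
        D.K * D.f * (1 + D.B) := mul_le_mul_of_nonneg_left (by linarith) (by positivity)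
    -- the two crossings
    have par1 := (path_lip cγ.1 (a := o.1) (b := 256 * D.n) le_rfl (by omega) (by omega)).2
    have par2 := (path_lip cγ.1 (a := o.1) (b := -(256 * D.n)) le_rfl (by omega) (by omega)).2
    have par3 := (path_lip hg.1 (a := o.1) (b := -(4 * D.n)) le_rfl (by omega) (by omega)).2
    have par4 := (path_lip hg.1 (a := o.1) (b := 4 * D.n) le_rfl (by omega) (by omega)).2
    rw [cγ.2.1] at par1 par2
    rw [hg.2.1] at par3 par4
    obtain ⟨k1, hk1⟩ := par1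
    obtain ⟨k2, hk2⟩ := par2
    obtain ⟨k3, hk3⟩ := par3
    obtain ⟨k4, hk4⟩ := par4
    have rA : Reach (-(4 * D.n), g (-(4 * D.n))) (256 * D.n, γ (256 * D.n)) := by
      refine ⟨?_, ⟨k1 - k3, ?_⟩⟩
      · simp only
        rw [abs_le] at *
        constructor <;> omega
      · simp only
        omega
    have rB : Reach (-(256 * D.n), γ (-(256 * D.n))) (4 * D.n, g (4 * D.n)) := by
      refine ⟨?_, ⟨k4 - k2, ?_⟩⟩
      · simp only
        rw [abs_le] at *
        constructor <;> omega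
      · simp only
        omega
    have v1 := h2.b (g (-(4 * D.n))) (γ (256 * D.n)) hgX (b2'.trans hAX) rA
    have v2 := h2.a (γ (-(256 * D.n))) (g (4 * D.n)) (b1'.trans hAX) hgX' rB
    have ea : |(g (-(4 * D.n)) : ℝ)| ≤ a * D.w := by
      rw [ha, div_mul_cancel₀ _ hw0.ne']
    have eb : |(g (4 * D.n) : ℝ)| ≤ b * D.w := by
      rw [hb, div_mul_cancel₀ _ hw0.ne']
    have v3 := low_bd D hD (g (-(4 * D.n))) (γ (256 * D.n)) (-(4 * D.n)) (256 * D.n) (by ring)
      a D.B ea b2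
    have v4 := low_bd D hD (γ (-(256 * D.n))) (g (4 * D.n)) (-(256 * D.n)) (4 * D.n) (by ring)
      D.B b b1 eb
    have s1 := T_superadd ω' rL rA
    have s2 := T_superadd ω' (reach_trans rL rA) rR'
    have s3 := T_superadd ω' rL' rB
    have s4 := T_superadd ω' (reach_trans rL' rB) rR
    have e5 : sg D.q / 2 * ((a + D.B) ^ 2 + (b + D.B) ^ 2) / (65 / 2) * D.f =
        sg D.q / 2 * (a + D.B) ^ 2 / (65 / 2) * D.f +
        sg D.q / 2 * (D.B + b) ^ 2 / (65 / 2) * D.f := by ring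
    have e6 : (D.H / 1000 + D.K * (3 + 3 * D.B + a + b) +
        sg D.q / 2 * ((a + D.B) ^ 2 + (b + D.B) ^ 2) / (65 / 2)) * D.f =
        D.H * D.f / 1000 + D.K * D.f * (1 + D.B) + D.K * D.f * (1 + (a + D.B)) +
        D.K * D.f * (1 + (D.B + b)) + (sg D.q / 2 * (a + D.B) ^ 2 / (65 / 2) * D.f +
        sg D.q / 2 * (D.B + b) ^ 2 / (65 / 2) * D.f) := by
      rw [← e5]; ring
    rw [e6]
    linarith

end Pool.Agent.H36.INS.XY
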